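import Pool.Agent.W845.TR.Base

set_option autoImplicit false
open scoped BigOperators

namespace Pool.Agent.W214.TR

open Pool.Agent.W845.TR

theorem aw1 : St_G1 → St_G2 → St_GD1 → St_GD2 → St_AW1 := by
  intro G1 G2 D1 D2 d Lam A x hx hnb
  have hxO : x ∈ (((A.erase x : Finset (S d)) : Set (S d))ᶜ) := by
    simp
  have he : ∀ b : Bool, ((al Lam b (A.erase x) : ℤ) - al Lam b (insert x A) = 1 ∧
        (∀ I, MaxInd (bd Lam b (((A.erase x : Finset (S d)) : Set (S d))ᶜ)) I → x ∈ I)) ∨
      ((al Lam b (A.erase x) : ℤ) - al Lam b (insert x A) = 0 ∧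
        (∃ I, MaxInd (bd Lam b (((A.erase x : Finset (S d)) : Set (S d))ᶜ)) I ∧ x ∉ I)) := by
    intro b
    have e : bd Lam b (((insert x A : Finset (S d)) : Set (S d))ᶜ) =
        (bd Lam b (((A.erase x : Finset (S d)) : Set (S d))ᶜ)).erase x := by
      ext y
      simp only [mem_bd, Finset.mem_erase, Set.mem_compl_iff, Finset.mem_coe, Finset.mem_insert]
      tauto
    have h1 := alpha_erase (bd Lam b (((A.erase x : Finset (S d)) : Set (S d))ᶜ)) x
    have h2 := forall_mem_iff (bd Lam b (((A.erase x : Finset (S d)) : Set (S d))ᶜ)) x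
    by_cases hall : ∀ I, MaxInd (bd Lam b (((A.erase x : Finset (S d)) : Set (S d))ᶜ)) I → x ∈ I
    · left
      refine ⟨?_, hall⟩
      have h3 := h2.mp hall
      unfold al
      rw [e]
      omega
    · right
      refine ⟨?_, ?_⟩
      · have h3 : ¬ _ := fun h => hall (h2.mpr h)
        unfold al
        rw [e]
        omega
      · push Not at hall
        exact hall
  have hFF : sg x * (FF Lam (A.erase x) - FF Lam (insert x A)) =
      ((al Lam (par x) (A.erase x) : ℤ) - al Lam (par x) (insert x A)) -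
      ((al Lam (!par x) (A.erase x) : ℤ) - al Lam (!par x) (insert x A)) := by
    unfold FF sg
    cases hp : par x
    · simp only [Bool.not_false]
      norm_num
      ring
    · simp only [Bool.not_true]
      norm_num
      ring
  rw [hFF]
  have hi : (∀ I, MaxInd (bd Lam (!par x) (((A.erase x : Finset (S d)) : Set (S d))ᶜ)) I → x ∈ I) →
      ¬ (∃ I, MaxInd (bd Lam (par x) (((A.erase x : Finset (S d)) : Set (S d))ᶜ)) I ∧ x ∉ I) := by
    intro h1 h2
    have w1 := G2 d Lam _ x hx hnb hxO h1
    have w2 := G1 d Lam _ x hx hxO h2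
    exact W_excl _ _ _ le_rfl x {x} w2 w1
  have hg1 := G1 d Lam _ x hx hxO
  have hg2 := G2 d Lam _ x hx hnb hxO
  rcases he (par x) with ⟨a1, a2⟩ | ⟨a1, a2⟩
  · rcases he (!par x) with ⟨b1, b2⟩ | ⟨b1, b2⟩
    · -- both one
      rw [a1, b1]
      refine ⟨by norm_num, by norm_num, ?_, ?_⟩
      · intro hU
        exact absurd (hg2 b2) hU.2
      · intro r _ _
        norm_num
    · rw [a1, b1]
      refine ⟨by norm_num, by norm_num, ?_, ?_⟩
      · intro _; norm_num
      · intro r hr hU
        exfalso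
        unfold Und at hU
        rw [not_and_or, not_not, not_not] at hU
        rcases hU with hU | hU
        · obtain ⟨I, hI, hxI⟩ := D1 d Lam _ x r (fun y hy => hr y (by omega)) hxO hU
          exact hxI (a2 I hI)
        · obtain ⟨I, hI, hxI⟩ := b2
          exact hxI (D2 d Lam _ x r hr hxO hU I hI)
  · rcases he (!par x) with ⟨b1, b2⟩ | ⟨b1, b2⟩
    · exact absurd a2 (hi b2)
    · rw [a1, b1]
      refine ⟨by norm_num, by norm_num, ?_, ?_⟩
      · intro hU
        exact absurd (hg1 a2) hU.1
      · intro r _ _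
        norm_num

end Pool.Agent.W214.TR
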